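import Mathlib

/-!
# Slices of graphs of Weierstrass type functions

For every `b ≥ 2` and `0 < α < 1` there is a nonempty open set of Lipschitz functions `g` on the
circle such that the graph of `W_g` has a non-vertical, non-extremal slice which is a single point.
-/

open Set MeasureTheory Filter Topology
open scoped ENNReal NNReal

namespace Pool.Agent.Results.MP_60983f_an.SinglePointSlices

/-! ### The Banach space `Lip(S¹)` -/

/-- The additive group of Lipschitz functions on the circle `ℝ/ℤ`. -/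
def lipSubgroup : AddSubgroup (UnitAddCircle → ℝ) where
  carrier := {g | ∃ K : ℝ≥0, LipschitzWith K g}
  zero_mem' := ⟨0, LipschitzWith.const 0⟩
  add_mem' := by
    rintro f g ⟨K, hK⟩ ⟨L, hL⟩
    exact ⟨K + L, hK.add hL⟩
  neg_mem' := by
    rintro f ⟨K, hK⟩
    exact ⟨K, hK.neg⟩

/-- `Lip(S¹)`: Lipschitz functions on the circle `ℝ/ℤ`. -/
def LipS1 : Type := lipSubgroup

noncomputable instance : AddCommGroup LipS1 := inferInstanceAs (AddCommGroup lipSubgroup)

instance : CoeFun LipS1 (fun _ => UnitAddCircle → ℝ) := ⟨fun g => g.1⟩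

/-- `sup |g|`. -/
noncomputable def supPart (g : LipS1) : ℝ := ⨆ x : UnitAddCircle, |g x|

/-- `sup_{x ≠ y} |g x - g y| / |x - y|` (the pairs `x = y` contribute `0 / 0 = 0`). -/
noncomputable def lipPart (g : LipS1) : ℝ :=
  ⨆ p : UnitAddCircle × UnitAddCircle, |g p.1 - g p.2| / dist p.1 p.2

lemma zero_apply (x : UnitAddCircle) : (0 : LipS1) x = 0 := rfl
lemma add_apply (f g : LipS1) (x : UnitAddCircle) : (f + g) x = f x + g x := rfl
lemma neg_apply (f : LipS1) (x : UnitAddCircle) : (-f) x = - f x := rfl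
lemma sub_apply (f g : LipS1) (x : UnitAddCircle) : (f - g) x = f x - g x := rfl

lemma bdd_sup (g : LipS1) : BddAbove (range fun x : UnitAddCircle => |g x|) := by
  obtain ⟨K, hK⟩ := g.2
  have hc : Continuous fun x : UnitAddCircle => |g x| := hK.continuous.abs
  exact (isCompact_range hc).bddAbove

lemma bdd_lip (g : LipS1) :
    BddAbove (range fun p : UnitAddCircle × UnitAddCircle => |g p.1 - g p.2| / dist p.1 p.2) := by
  obtain ⟨K, hK⟩ := g.2
  refine ⟨K, ?_⟩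
  rintro _ ⟨p, rfl⟩
  have h := hK.dist_le_mul p.1 p.2
  rw [Real.dist_eq] at h
  exact div_le_of_le_mul₀ dist_nonneg K.2 h

lemma abs_le_sup (g : LipS1) (x : UnitAddCircle) : |g x| ≤ supPart g :=
  le_ciSup (bdd_sup g) x

lemma sup_nonneg (g : LipS1) : 0 ≤ supPart g := (abs_nonneg _).trans (abs_le_sup g 0)

lemma lip_le (g : LipS1) (x y : UnitAddCircle) : |g x - g y| ≤ lipPart g * dist x y := by
  have h : |g x - g y| / dist x y ≤ lipPart g := le_ciSup (bdd_lip g) (x, y)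
  rcases eq_or_ne x y with rfl | hxy
  · simp
  · exact (div_le_iff₀ (dist_pos.2 hxy)).1 h

lemma lip_nonneg (g : LipS1) : 0 ≤ lipPart g := by
  have h : |g 0 - g 0| / dist (0 : UnitAddCircle) 0 ≤ lipPart g :=
    le_ciSup (bdd_lip g) ((0 : UnitAddCircle), (0 : UnitAddCircle))
  simpa using h

/-- The norm `‖g‖ = sup |g| + sup_{x ≠ y} |g x - g y| / |x - y|`. -/
noncomputable def lipNorm : AddGroupNorm LipS1 where
  toFun g := supPart g + lipPart g
  map_zero' := by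
    simp [supPart, lipPart, zero_apply]
  add_le' f g := by
    have h1 : supPart (f + g) ≤ supPart f + supPart g := ciSup_le fun x => by
      rw [add_apply]
      exact (abs_add_le _ _).trans (add_le_add (abs_le_sup f x) (abs_le_sup g x))
    have h2 : lipPart (f + g) ≤ lipPart f + lipPart g := ciSup_le fun p => by
      rw [add_apply, add_apply]
      apply div_le_of_le_mul₀ dist_nonneg (add_nonneg (lip_nonneg f) (lip_nonneg g))
      have e : f p.1 + g p.1 - (f p.2 + g p.2) = (f p.1 - f p.2) + (g p.1 - g p.2) := by ring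
      rw [e, add_mul]
      exact (abs_add_le _ _).trans (add_le_add (lip_le f _ _) (lip_le g _ _))
    linarith
  neg' f := by
    have h1 : supPart (-f) = supPart f := by simp [supPart, neg_apply]
    have h2 : lipPart (-f) = lipPart f := by
      unfold lipPart
      congr 1
      ext p
      rw [neg_apply, neg_apply, neg_sub_neg, abs_sub_comm]
    rw [h1, h2]
  eq_zero_of_map_eq_zero' f h := by
    have h0 : supPart f = 0 := by
      have := sup_nonneg f
      have := lip_nonneg f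
      linarith
    apply Subtype.ext
    funext x
    have := abs_le_sup f x
    rw [h0] at this
    exact abs_nonpos_iff.1 this

noncomputable instance : NormedAddCommGroup LipS1 := lipNorm.toNormedAddCommGroup

lemma norm_def (g : LipS1) : ‖g‖ = supPart g + lipPart g := rfl

/-! ### Prevalence -/

/-- Shy sets: there are a Borel measure `μ` and a Borel set `B ⊇ A` with `0 < μ K < ∞` for some
compact `K` and `μ (x + B) = 0` for every `x`. -/
def Shy {X : Type*} [NormedAddCommGroup X] (A : Set X) : Prop :=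
  ∃ (μ : @Measure X (borel X)) (B : Set X), MeasurableSet[borel X] B ∧ A ⊆ B ∧
    (∃ K : Set X, IsCompact K ∧ 0 < μ K ∧ μ K < ∞) ∧ ∀ x : X, μ ((fun y => x + y) '' B) = 0

/-- Prevalent sets are the complements of shy sets. -/
def Prevalent {X : Type*} [NormedAddCommGroup X] (A : Set X) : Prop := Shy Aᶜ

/-- A prevalent `g` has property `Q`: the set of such `g` contains a prevalent set. -/
def ForPrevalent {X : Type*} [NormedAddCommGroup X] (Q : X → Prop) : Prop :=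
  ∃ A : Set X, Prevalent A ∧ A ⊆ {g | Q g}

lemma not_shy_of_open {X : Type*} [NormedAddCommGroup X] {A U : Set X} (hU : IsOpen U)
    (hne : U.Nonempty) (h : U ⊆ A) : ¬ Shy A := by
  rintro ⟨μ, B, -, hAB, ⟨K, hK, hK0, -⟩, hμ⟩
  obtain ⟨u, hu⟩ := hne
  have hcov : K ⊆ ⋃ x : X, (fun y => x + y) '' U := by
    intro k _
    exact mem_iUnion.2 ⟨k - u, u, hu, by simp⟩
  obtain ⟨t, ht⟩ := hK.elim_finite_subcover (fun x : X => (fun y => x + y) '' U)
    (fun x => (Homeomorph.addLeft x).isOpenMap U hU) hcov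
  have : μ K ≤ 0 := by
    calc μ K ≤ μ (⋃ x ∈ t, (fun y => x + y) '' B) := by
          apply measure_mono
          refine ht.trans ?_
          exact iUnion₂_mono fun x _ => image_mono (h.trans hAB)
      _ ≤ ∑ x ∈ t, μ ((fun y => x + y) '' B) := measure_biUnion_finset_le _ _
      _ = 0 := Finset.sum_eq_zero fun x _ => hμ x
  exact absurd this (not_le.2 hK0)

lemma not_forPrevalent {X : Type*} [NormedAddCommGroup X] {Q : X → Prop} {U : Set X}
    (hU : IsOpen U) (hne : U.Nonempty) (h : ∀ g ∈ U, ¬ Q g) : ¬ ForPrevalent Q := by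
  rintro ⟨A, hA, hAQ⟩
  exact not_shy_of_open hU hne (A := Aᶜ) (fun g hg hgA => h g hg (hAQ hgA)) hA

/-! ### The functions and their slices -/

/-- `W_g(x) = ∑ b^{-α k} g(b^k x)`. -/
noncomputable def W (b : ℕ) (α : ℝ) (g : LipS1) (x : ℝ) : ℝ :=
  ∑' k : ℕ, (b : ℝ) ^ (-(α * k)) * g (((b : ℝ) ^ k * x : ℝ) : UnitAddCircle)

/-- The graph of `W_g` over `[0, 1]`. -/
def graph (b : ℕ) (α : ℝ) (g : LipS1) : Set (ℝ × ℝ) :=
  {p | p.1 ∈ Icc (0 : ℝ) 1 ∧ p.2 = W b α g p.1}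

/-- `P_θ(x, y) = x cos θ + y sin θ`. -/
noncomputable def proj (θ : ℝ) (p : ℝ × ℝ) : ℝ := p.1 * Real.cos θ + p.2 * Real.sin θ

/-- The slice of the graph in direction `θ` at height `t`. -/
noncomputable def slice (b : ℕ) (α : ℝ) (g : LipS1) (θ t : ℝ) : Set (ℝ × ℝ) :=
  graph b α g ∩ proj θ ⁻¹' {t}

/-- `m_θ`, the minimum of `P_θ` on the graph. -/
noncomputable def mθ (b : ℕ) (α : ℝ) (g : LipS1) (θ : ℝ) : ℝ := sInf (proj θ '' graph b α g)

/-- `M_θ`, the maximum of `P_θ` on the graph. -/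
noncomputable def Mθ (b : ℕ) (α : ℝ) (g : LipS1) (θ : ℝ) : ℝ := sSup (proj θ '' graph b α g)

/-! ### Proof -/

section Series

variable {b : ℕ} {ρ : ℝ}

/-- The series with `ρ = b^{-α}`. -/
noncomputable def S (b : ℕ) (ρ : ℝ) (g : LipS1) (x : ℝ) : ℝ :=
  ∑' k : ℕ, ρ ^ k * g (((b : ℝ) ^ k * x : ℝ) : UnitAddCircle)

lemma summable_S (h0 : 0 < ρ) (h1 : ρ < 1) (g : LipS1) (x : ℝ) :
    Summable fun k : ℕ => ρ ^ k * g (((b : ℝ) ^ k * x : ℝ) : UnitAddCircle) := by
  refine Summable.of_norm_bounded (g := fun k : ℕ => supPart g * ρ ^ k)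
    ((summable_geometric_of_lt_one h0.le h1).mul_left _) fun k => ?_
  rw [Real.norm_eq_abs, abs_mul, abs_of_pos (pow_pos h0 k), mul_comm]
  exact mul_le_mul_of_nonneg_right (abs_le_sup g _) (pow_pos h0 k).le

lemma abs_S_le (h0 : 0 < ρ) (h1 : ρ < 1) (g : LipS1) (x : ℝ) :
    |S b ρ g x| ≤ supPart g / (1 - ρ) := by
  have h : HasSum (fun k : ℕ => supPart g * ρ ^ k) (supPart g / (1 - ρ)) := by
    rw [div_eq_mul_inv]
    exact (hasSum_geometric_of_lt_one h0.le h1).mul_left _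
  have := tsum_of_norm_bounded h
    (f := fun k : ℕ => ρ ^ k * g (((b : ℝ) ^ k * x : ℝ) : UnitAddCircle)) fun k => by
      rw [Real.norm_eq_abs, abs_mul, abs_of_pos (pow_pos h0 k), mul_comm]
      exact mul_le_mul_of_nonneg_right (abs_le_sup g _) (pow_pos h0 k).le
  simpa [S] using this

lemma dist_coe_le (x y : ℝ) : dist (x : UnitAddCircle) (y : UnitAddCircle) ≤ |x - y| := by
  rw [dist_eq_norm, ← AddCircle.coe_sub, UnitAddCircle.norm_eq]
  simpa using round_le (x - y) 0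

lemma lip_real (g : LipS1) (x y : ℝ) :
    |g (x : UnitAddCircle) - g (y : UnitAddCircle)| ≤ lipPart g * |x - y| :=
  (lip_le g _ _).trans (mul_le_mul_of_nonneg_left (dist_coe_le x y) (lip_nonneg g))

/-- The self-similarity at `1/b`. -/
lemma S_shift (hb : 2 ≤ b) (h0 : 0 < ρ) (h1 : ρ < 1) (g : LipS1) (u : ℝ) :
    S b ρ g (1 / b + u) = g ((1 / b + u : ℝ) : UnitAddCircle) + ρ * S b ρ g (b * u) := by
  have hb0 : (b : ℝ) ≠ 0 := by positivity
  unfold S
  rw [(summable_S h0 h1 g _).tsum_eq_zero_add, ← tsum_mul_left]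
  congr 1
  · simp
  · congr 1
    ext k
    have e : ((((b : ℝ) ^ (k + 1) * (1 / b + u) : ℝ)) : UnitAddCircle)
        = (((b : ℝ) ^ k * (b * u) : ℝ) : UnitAddCircle) := by
      have e1 : (b : ℝ) ^ (k + 1) * (1 / b + u) = (b : ℝ) ^ k * (b * u) + ((b ^ k : ℕ) : ℝ) := by
        push_cast
        field_simp
        ring
      rw [e1, AddCircle.coe_add]
      have : (((b ^ k : ℕ) : ℝ) : UnitAddCircle) = 0 :=
        (AddCircle.coe_eq_zero_iff 1).2 ⟨((b ^ k : ℕ) : ℤ), by simp⟩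
      rw [this, add_zero]
    rw [e]
    ring

lemma S_zero (g : LipS1) : S b ρ g 0 = ∑' k : ℕ, ρ ^ k * g 0 := by
  unfold S
  congr 1
  ext k
  simp

lemma S_add (h0 : 0 < ρ) (h1 : ρ < 1) (f g : LipS1) (x : ℝ) :
    S b ρ (f + g) x = S b ρ f x + S b ρ g x := by
  unfold S
  rw [← (summable_S h0 h1 f x).tsum_add (summable_S h0 h1 g x)]
  congr 1
  ext k
  rw [add_apply]
  ring

/-- Hölder type estimate for the perturbation. -/
lemma perturb (hb : 2 ≤ b) (h0 : 0 < ρ) (h1 : ρ < 1) (hρb : 1 < ρ * b) (p : LipS1) (v : ℝ) (N : ℕ)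
    (hv : (b : ℝ) ^ N * |v| ≤ 1 / 4) :
    |S b ρ p v - S b ρ p 0| ≤ ρ ^ N * (‖p‖ * (ρ * b / (ρ * b - 1) + 2 / (1 - ρ))) := by
  have hs0 : Summable fun k : ℕ => ρ ^ k * p 0 :=
    (summable_geometric_of_lt_one h0.le h1).mul_right _
  have hs := (summable_S (b := b) h0 h1 p v).sub hs0
  have e : S b ρ p v - S b ρ p 0
      = ∑' k : ℕ, (ρ ^ k * p (((b : ℝ) ^ k * v : ℝ) : UnitAddCircle) - ρ ^ k * p 0) := by
    rw [S_zero, (summable_S h0 h1 p v).tsum_sub hs0]
    rfl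
  rw [e, ← hs.sum_add_tsum_nat_add (N + 1)]
  have hL := lip_nonneg p
  have hU := sup_nonneg p
  have hq1 : 0 < ρ * b - 1 := by linarith
  have hr1 : 0 < 1 - ρ := by linarith
  have hbp : (0 : ℝ) < b := by positivity
  -- the finite part
  have hfin : |∑ k ∈ Finset.range (N + 1),
      (ρ ^ k * p (((b : ℝ) ^ k * v : ℝ) : UnitAddCircle) - ρ ^ k * p 0)|
      ≤ ρ ^ N * (lipPart p * (ρ * b / (ρ * b - 1))) := by
    calc |∑ k ∈ Finset.range (N + 1),
        (ρ ^ k * p (((b : ℝ) ^ k * v : ℝ) : UnitAddCircle) - ρ ^ k * p 0)|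
        ≤ ∑ k ∈ Finset.range (N + 1),
          |ρ ^ k * p (((b : ℝ) ^ k * v : ℝ) : UnitAddCircle) - ρ ^ k * p 0| :=
          Finset.abs_sum_le_sum_abs _ _
      _ ≤ ∑ k ∈ Finset.range (N + 1), lipPart p * |v| * (ρ * b) ^ k := by
          refine Finset.sum_le_sum fun k _ => ?_
          rw [← mul_sub, abs_mul, abs_of_pos (pow_pos h0 k)]
          have h := lip_real p ((b : ℝ) ^ k * v) 0
          have e0 : ((0 : ℝ) : UnitAddCircle) = 0 := rfl
          rw [e0, sub_zero, abs_mul, abs_of_pos (pow_pos hbp k)] at h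
          have h' := mul_le_mul_of_nonneg_left h (pow_pos h0 k).le
          refine h'.trans (le_of_eq ?_)
          rw [mul_pow]
          ring
      _ = lipPart p * |v| * (((ρ * b) ^ (N + 1) - 1) / (ρ * b - 1)) := by
          rw [← Finset.mul_sum, geom_sum_eq hρb.ne']
      _ ≤ lipPart p * |v| * ((ρ * b) ^ (N + 1) / (ρ * b - 1)) := by
          apply mul_le_mul_of_nonneg_left _ (by positivity)
          apply div_le_div_of_nonneg_right _ hq1.le
          linarith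
      _ = (ρ ^ N * (lipPart p * (ρ * b / (ρ * b - 1)))) * ((b : ℝ) ^ N * |v|) := by
          rw [pow_succ, mul_pow]
          ring
      _ ≤ (ρ ^ N * (lipPart p * (ρ * b / (ρ * b - 1)))) * 1 := by
          apply mul_le_mul_of_nonneg_left _ (by positivity)
          linarith
      _ = _ := by ring
  -- the tail
  have htail : |∑' k : ℕ, (ρ ^ (k + (N + 1)) * p (((b : ℝ) ^ (k + (N + 1)) * v : ℝ) :
      UnitAddCircle) - ρ ^ (k + (N + 1)) * p 0)| ≤ ρ ^ N * (supPart p * (2 / (1 - ρ))) := by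
    have hsum : HasSum (fun k : ℕ => ρ ^ (N + 1) * (2 * supPart p) * ρ ^ k)
        (ρ ^ (N + 1) * (2 * supPart p) * (1 - ρ)⁻¹) :=
      (hasSum_geometric_of_lt_one h0.le h1).mul_left _
    have h := tsum_of_norm_bounded hsum (f := fun k : ℕ =>
      (ρ ^ (k + (N + 1)) * p (((b : ℝ) ^ (k + (N + 1)) * v : ℝ) :
      UnitAddCircle) - ρ ^ (k + (N + 1)) * p 0)) fun k => by
        rw [Real.norm_eq_abs, ← mul_sub, abs_mul, abs_of_pos (pow_pos h0 _)]
        have ha := abs_le_sup p (((b : ℝ) ^ (k + (N + 1)) * v : ℝ) : UnitAddCircle)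
        have hc := abs_le_sup p 0
        have hd : |p (((b : ℝ) ^ (k + (N + 1)) * v : ℝ) : UnitAddCircle) - p 0|
            ≤ 2 * supPart p := (abs_sub _ _).trans (by linarith)
        calc ρ ^ (k + (N + 1)) * |p (((b : ℝ) ^ (k + (N + 1)) * v : ℝ) : UnitAddCircle) - p 0|
            ≤ ρ ^ (k + (N + 1)) * (2 * supPart p) :=
              mul_le_mul_of_nonneg_left hd (pow_pos h0 _).le
          _ = _ := by rw [pow_add]; ring
    rw [Real.norm_eq_abs] at h
    refine h.trans ?_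
    have : ρ ^ (N + 1) ≤ ρ ^ N := pow_le_pow_of_le_one h0.le h1.le (by omega)
    calc ρ ^ (N + 1) * (2 * supPart p) * (1 - ρ)⁻¹
        ≤ ρ ^ N * (2 * supPart p) * (1 - ρ)⁻¹ := by gcongr
      _ = _ := by rw [div_eq_mul_inv]; ring
  refine (abs_add_le _ _).trans ((add_le_add hfin htail).trans ?_)
  rw [← mul_add]
  apply mul_le_mul_of_nonneg_left _ (pow_pos h0 N).le
  rw [norm_def]
  have hA : 0 < ρ * b / (ρ * b - 1) := by positivity
  have hB : 0 < 2 / (1 - ρ) := by positivity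
  nlinarith [mul_nonneg hL hB.le, mul_nonneg hU hA.le]

/-- Truncation to `[-1, 1]`. -/
noncomputable def cl (t : ℝ) : ℝ := max (-1) (min 1 t)

lemma cl_neg (t : ℝ) : cl (-t) = - cl t := by
  unfold cl
  rcases le_total t 1 with h | h <;> rcases le_total (-1) t with h' | h'
  · rw [min_eq_right (by linarith : -t ≤ 1), min_eq_right h, max_eq_right (by linarith),
      max_eq_right h']
  · rw [min_eq_left (by linarith : 1 ≤ -t), min_eq_right h, max_eq_right (by linarith),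
      max_eq_left h']
    ring
  · rw [min_eq_right (by linarith : -t ≤ 1), min_eq_left h, max_eq_left (by linarith),
      max_eq_right (by linarith)]
  · exfalso; linarith

lemma abs_cl (t : ℝ) : |cl t| ≤ 1 := by
  unfold cl
  rw [abs_le]
  exact ⟨le_max_left _ _, max_le (by norm_num) (min_le_left _ _)⟩

lemma cl_nonneg {t : ℝ} (ht : 0 ≤ t) : 0 ≤ cl t := by
  unfold cl
  exact le_max_of_le_right (le_min zero_le_one ht)

lemma cl_one {t : ℝ} (ht : 1 ≤ t) : cl t = 1 := by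
  unfold cl
  rw [min_eq_left ht, max_eq_right (by norm_num)]

lemma cl_lip : LipschitzWith 1 cl := (LipschitzWith.id.const_min 1).const_max (-1)

/-- The triangle wave on the circle. -/
noncomputable def tri (x : UnitAddCircle) : ℝ :=
  ‖x + ((1 / 4 : ℝ) : UnitAddCircle)‖ - ‖x - ((1 / 4 : ℝ) : UnitAddCircle)‖

lemma tri_lip : LipschitzWith 2 tri := by
  apply LipschitzWith.of_dist_le_mul
  intro x y
  rw [Real.dist_eq, dist_eq_norm]
  unfold tri
  have h1 := abs_norm_sub_norm_le (x + ((1 / 4 : ℝ) : UnitAddCircle))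
    (y + ((1 / 4 : ℝ) : UnitAddCircle))
  have h2 := abs_norm_sub_norm_le (x - ((1 / 4 : ℝ) : UnitAddCircle))
    (y - ((1 / 4 : ℝ) : UnitAddCircle))
  rw [add_sub_add_right_eq_sub] at h1
  rw [sub_sub_sub_cancel_right] at h2
  rw [abs_le] at *
  have e : ((2 : ℝ≥0) : ℝ) = 2 := rfl
  rw [e]
  constructor <;> linarith [h1.1, h1.2, h2.1, h2.2]

lemma tri_neg (x : UnitAddCircle) : tri (-x) = - tri x := by
  unfold tri
  rw [← norm_neg (-x + _), ← norm_neg (-x - _)]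
  rw [neg_add, neg_neg, neg_sub, sub_neg_eq_add, neg_sub, add_comm _ x, ← sub_eq_add_neg]

lemma tri_coe {x : ℝ} (h0 : 0 ≤ x) (h1 : x ≤ 1 / 4) : tri (x : UnitAddCircle) = 2 * x := by
  unfold tri
  rw [← AddCircle.coe_add, ← AddCircle.coe_sub]
  have e1 : ‖((x + 1 / 4 : ℝ) : UnitAddCircle)‖ = |x + 1 / 4| :=
    (AddCircle.norm_coe_eq_abs_iff 1 one_ne_zero).2 (by
      rw [abs_of_nonneg (by linarith), abs_one]; linarith)
  have e2 : ‖((x - 1 / 4 : ℝ) : UnitAddCircle)‖ = |x - 1 / 4| :=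
    (AddCircle.norm_coe_eq_abs_iff 1 one_ne_zero).2 (by
      rw [abs_of_nonpos (by linarith), abs_one]; linarith)
  rw [e1, e2, abs_of_nonneg (by linarith), abs_of_nonpos (by linarith)]
  ring

/-- The plateau function. -/
noncomputable def g₀ (A : ℝ≥0) : LipS1 :=
  ⟨fun x => cl (A * tri x), ⟨1 * (A * 2), by
    apply cl_lip.comp
    apply LipschitzWith.of_dist_le_mul
    intro x y
    have := tri_lip.dist_le_mul x y
    rw [Real.dist_eq] at *
    rw [← mul_sub, abs_mul, NNReal.abs_eq]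
    push_cast
    rw [mul_assoc]
    exact mul_le_mul_of_nonneg_left this A.coe_nonneg⟩⟩

lemma g₀_apply (A : ℝ≥0) (x : UnitAddCircle) : g₀ A x = cl (A * tri x) := rfl

lemma g₀_neg (A : ℝ≥0) (x : UnitAddCircle) : g₀ A (-x) = - g₀ A x := by
  rw [g₀_apply, g₀_apply, tri_neg, mul_neg, cl_neg]

lemma g₀_zero (A : ℝ≥0) : g₀ A 0 = 0 := by
  have := g₀_neg A 0
  rw [neg_zero] at this
  linarith

lemma S_g₀_neg (A : ℝ≥0) (v : ℝ) : S b ρ (g₀ A) (-v) = - S b ρ (g₀ A) v := by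
  unfold S
  rw [← tsum_neg]
  congr 1
  ext k
  rw [mul_neg, AddCircle.coe_neg, g₀_neg]
  ring

lemma S_g₀_zero (A : ℝ≥0) : S b ρ (g₀ A) 0 = 0 := by
  rw [S_zero, g₀_zero]
  simp

/-- Lower bound for the series of the plateau function. -/
lemma plateau (hb : 2 ≤ b) (h0 : 0 < ρ) (h1 : ρ < 1) {J N : ℕ} (hJ : ρ ^ J ≤ 1 - ρ)
    (hJN : J ≤ N) {A : ℝ≥0} (hA : (A : ℝ) = 2 * b ^ (J + 1)) {v : ℝ} (hv : 0 < v)
    (hv1 : (b : ℝ) ^ N * v ≤ 1 / 4) (hv2 : 1 / 4 < (b : ℝ) ^ (N + 1) * v) :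
    ρ ^ N ≤ S b ρ (g₀ A) v := by
  have hbp : (0 : ℝ) < b := by positivity
  have hb1 : (1 : ℝ) ≤ b := by exact_mod_cast (by omega : 1 ≤ b)
  have hr1 : 0 < 1 - ρ := by linarith
  have hs := summable_S (b := b) h0 h1 (g₀ A) v
  have e : S b ρ (g₀ A) v = ∑' k : ℕ, ρ ^ k * g₀ A (((b : ℝ) ^ k * v : ℝ) : UnitAddCircle) := rfl
  rw [e, ← hs.sum_add_tsum_nat_add (N + 1)]
  have hterm : ∀ k ∈ Finset.range (N + 1),
      0 ≤ ρ ^ k * g₀ A (((b : ℝ) ^ k * v : ℝ) : UnitAddCircle) := by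
    intro k hk
    rw [Finset.mem_range] at hk
    apply mul_nonneg (pow_pos h0 k).le
    rw [g₀_apply]
    apply cl_nonneg
    have hk1 : (b : ℝ) ^ k * v ≤ 1 / 4 :=
      (mul_le_mul_of_nonneg_right (pow_le_pow_right₀ hb1 (by omega)) hv.le).trans hv1
    rw [tri_coe (by positivity) hk1]
    positivity
  have hfin : ρ ^ (N - J) ≤ ∑ k ∈ Finset.range (N + 1),
      ρ ^ k * g₀ A (((b : ℝ) ^ k * v : ℝ) : UnitAddCircle) := by
    refine le_trans (le_of_eq ?_) (Finset.single_le_sum hterm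
      (Finset.mem_range.2 (by omega : N - J < N + 1)))
    have hk1 : (b : ℝ) ^ (N - J) * v ≤ 1 / 4 :=
      (mul_le_mul_of_nonneg_right (pow_le_pow_right₀ hb1 (by omega)) hv.le).trans hv1
    rw [g₀_apply, tri_coe (by positivity) hk1, cl_one, mul_one]
    rw [hA]
    have e2 : (b : ℝ) ^ (N + 1) = b ^ (J + 1) * b ^ (N - J) := by
      rw [← pow_add]; congr 1; omega
    rw [e2] at hv2
    nlinarith
  have htail : |∑' k : ℕ, ρ ^ (k + (N + 1)) * g₀ A (((b : ℝ) ^ (k + (N + 1)) * v : ℝ) :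
      UnitAddCircle)| ≤ ρ ^ (N + 1) * (1 - ρ)⁻¹ := by
    have hsum : HasSum (fun k : ℕ => ρ ^ (N + 1) * ρ ^ k) (ρ ^ (N + 1) * (1 - ρ)⁻¹) :=
      (hasSum_geometric_of_lt_one h0.le h1).mul_left _
    have h := tsum_of_norm_bounded hsum (f := fun k : ℕ =>
      (ρ ^ (k + (N + 1)) * g₀ A (((b : ℝ) ^ (k + (N + 1)) * v : ℝ) : UnitAddCircle))) fun k => by
        rw [Real.norm_eq_abs, abs_mul, abs_of_pos (pow_pos h0 _)]
        rw [g₀_apply]
        calc ρ ^ (k + (N + 1)) * |cl _| ≤ ρ ^ (k + (N + 1)) * 1 :=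
              mul_le_mul_of_nonneg_left (abs_cl _) (pow_pos h0 _).le
          _ = _ := by rw [pow_add]; ring
    rwa [Real.norm_eq_abs] at h
  have h3 : ρ ^ N * (1 - ρ)⁻¹ ≤ ρ ^ (N - J) := by
    rw [← div_eq_mul_inv, div_le_iff₀ hr1]
    calc ρ ^ N = ρ ^ (N - J) * ρ ^ J := by rw [← pow_add]; congr 1; omega
      _ ≤ _ := mul_le_mul_of_nonneg_left hJ (pow_pos h0 _).le
  have h4 : ρ ^ N * (1 - ρ)⁻¹ - ρ ^ (N + 1) * (1 - ρ)⁻¹ = ρ ^ N := by
    rw [pow_succ]
    field_simp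
  have := (abs_le.1 htail).1
  linarith

/-- The key sign property near `0`. -/
lemma sign_near (hb : 2 ≤ b) (h0 : 0 < ρ) (h1 : ρ < 1) (hρb : 1 < ρ * b) {J : ℕ}
    (hJ : ρ ^ J ≤ 1 - ρ) {A : ℝ≥0} (hA : (A : ℝ) = 2 * b ^ (J + 1)) {g : LipS1}
    (hg : ‖g - g₀ A‖ * (ρ * b / (ρ * b - 1) + 2 / (1 - ρ)) < 1) {v : ℝ} (hv : v ≠ 0)
    (hv1 : |v| ≤ 1 / (4 * b ^ J)) : 0 < v * (S b ρ g v - S b ρ g 0) := by
  have hbp : (0 : ℝ) < b := by positivity
  have hb1 : (1 : ℝ) < b := by exact_mod_cast (by omega : 1 < b)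
  have hvp : 0 < |v| := abs_pos.2 hv
  have hbJ : (0 : ℝ) < b ^ J := by positivity
  have hx : (b : ℝ) ^ J ≤ 1 / (4 * |v|) := by
    rw [le_div_iff₀ (by positivity)]
    rw [le_div_iff₀ (by positivity)] at hv1
    linarith
  obtain ⟨N, hN1, hN2⟩ := exists_nat_pow_near ((one_le_pow₀ hb1.le).trans hx) hb1
  have hJN : J ≤ N := by
    by_contra hc
    have : (b : ℝ) ^ (N + 1) ≤ b ^ J := pow_le_pow_right₀ hb1.le (by omega)
    linarith
  rw [le_div_iff₀ (by positivity)] at hN1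
  rw [div_lt_iff₀ (by positivity)] at hN2
  have hp := perturb hb h0 h1 hρb (g - g₀ A) v N (by linarith)
  have hpl := plateau hb h0 h1 hJ hJN hA hvp (by linarith) (by linarith)
  have hρN : 0 < ρ ^ N := pow_pos h0 N
  have e : ∀ x, S b ρ g x = S b ρ (g - g₀ A) x + S b ρ (g₀ A) x := fun x => by
    rw [← S_add h0 h1, sub_add_cancel]
  rw [e v, e 0, S_g₀_zero]
  have hp' : |S b ρ (g - g₀ A) v - S b ρ (g - g₀ A) 0| < ρ ^ N :=
    hp.trans_lt (by
      calc ρ ^ N * (‖g - g₀ A‖ * (ρ * b / (ρ * b - 1) + 2 / (1 - ρ))) < ρ ^ N * 1 :=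
            mul_lt_mul_of_pos_left hg hρN
        _ = ρ ^ N := mul_one _)
  rw [abs_lt] at hp'
  rcases lt_or_gt_of_ne hv with h | h
  · rw [abs_of_neg h, S_g₀_neg] at hpl
    exact mul_pos_of_neg_of_neg h (by linarith [hp'.2])
  · rw [abs_of_pos h] at hpl
    exact mul_pos h (by linarith [hp'.1])

/-- Steep lines through the point over `1/b`. -/
lemma steep (hb : 2 ≤ b) (h0 : 0 < ρ) (h1 : ρ < 1) (hρb : 1 < ρ * b) {J : ℕ}
    (hJ : ρ ^ J ≤ 1 - ρ) {A : ℝ≥0} (hA : (A : ℝ) = 2 * b ^ (J + 1)) {g : LipS1}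
    (hg : ‖g - g₀ A‖ * (ρ * b / (ρ * b - 1) + 2 / (1 - ρ)) < 1) :
    ∃ a : ℝ, 0 < a ∧ ∀ x : ℝ, x ≠ 1 / b →
      0 < (x - 1 / b) * ((S b ρ g x + a * x) - (S b ρ g (1 / b) + a * (1 / b))) := by
  have hbp : (0 : ℝ) < b := by positivity
  have hL := lip_nonneg g
  have hr1 : 0 < 1 - ρ := by linarith
  obtain ⟨δ, hδ⟩ : ∃ δ : ℝ, δ = 1 / (4 * b ^ J) := ⟨_, rfl⟩
  have hδ0 : 0 < δ := by rw [hδ]; positivity
  obtain ⟨M, hM⟩ : ∃ M : ℝ, M = supPart g / (1 - ρ) := ⟨_, rfl⟩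
  have hM0 : 0 ≤ M := by rw [hM]; exact div_nonneg (sup_nonneg g) hr1.le
  refine ⟨lipPart g + 2 * M * b / δ + 1, by positivity, fun x hx => ?_⟩
  obtain ⟨u, rfl⟩ : ∃ u, x = 1 / b + u := ⟨x - 1 / b, by ring⟩
  have hu : u ≠ 0 := fun h => hx (by rw [h, add_zero])
  have e0 := S_shift hb h0 h1 g 0
  rw [add_zero, mul_zero] at e0
  rw [S_shift hb h0 h1 g u, e0]
  have hup : 0 < |u| := abs_pos.2 hu
  have hlip := lip_real g (1 / b + u) (1 / b)
  rw [add_sub_cancel_left] at hlip ⊢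
  -- the linear part
  obtain ⟨D, hD⟩ : ∃ D, D = g ((1 / b + u : ℝ) : UnitAddCircle) - g ((1 / b : ℝ) : UnitAddCircle) :=
    ⟨_, rfl⟩
  rw [← hD] at hlip
  have hmain : u * ((g ((1 / b + u : ℝ) : UnitAddCircle) + ρ * S b ρ g (b * u)
      + (lipPart g + 2 * M * b / δ + 1) * (1 / b + u))
      - (g ((1 / b : ℝ) : UnitAddCircle) + ρ * S b ρ g 0
      + (lipPart g + 2 * M * b / δ + 1) * (1 / b)))
      = (u * D + lipPart g * u ^ 2) + (2 * M * b / δ + 1) * u ^ 2
        + ρ * (u * (S b ρ g (b * u) - S b ρ g 0)) := by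
    rw [hD]; ring
  rw [hmain]
  have h1' : 0 ≤ u * D + lipPart g * u ^ 2 := by
    have : |u * D| ≤ lipPart g * u ^ 2 := by
      rw [abs_mul, ← sq_abs u]
      calc |u| * |D| ≤ |u| * (lipPart g * |u|) := mul_le_mul_of_nonneg_left hlip hup.le
        _ = _ := by ring
    linarith [(abs_le.1 this).1]
  have hu2 : 0 < u ^ 2 := by positivity
  rcases le_or_gt |b * u| δ with hc | hc
  · rw [hδ] at hc
    have hs := sign_near hb h0 h1 hρb hJ hA hg (v := b * u) (by positivity) hc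
    have hs' : 0 < u * (S b ρ g (b * u) - S b ρ g 0) := by
      have e2 : b * u * (S b ρ g (b * u) - S b ρ g 0)
        = b * (u * (S b ρ g (b * u) - S b ρ g 0)) := by ring
      rw [e2] at hs
      exact (mul_pos_iff_of_pos_left hbp).1 hs
    have : 0 < (2 * M * b / δ + 1) * u ^ 2 := by positivity
    have : 0 < ρ * (u * (S b ρ g (b * u) - S b ρ g 0)) := mul_pos h0 hs'
    linarith
  · have hM1 : |S b ρ g (b * u) - S b ρ g 0| ≤ 2 * M := by
      refine (abs_sub _ _).trans ?_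
      have := abs_S_le (b := b) h0 h1 g (b * u)
      have := abs_S_le (b := b) h0 h1 g 0
      linarith
    rw [abs_mul, abs_of_pos hbp] at hc
    have h5 : |ρ * (u * (S b ρ g (b * u) - S b ρ g 0))| ≤ |u| * (2 * M) := by
      rw [abs_mul, abs_mul, abs_of_pos h0]
      calc ρ * (|u| * |S b ρ g (b * u) - S b ρ g 0|) ≤ 1 * (|u| * (2 * M)) := by gcongr
        _ = _ := one_mul _
    have h6 : |u| * (2 * M) ≤ (2 * M * b / δ) * u ^ 2 := by
      rw [← sq_abs u]
      have : 1 ≤ b * |u| / δ := by rw [le_div_iff₀ hδ0]; linarith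
      calc |u| * (2 * M) = |u| * (2 * M) * 1 := (mul_one _).symm
        _ ≤ |u| * (2 * M) * (b * |u| / δ) := by gcongr
        _ = _ := by ring
    have := (abs_le.1 h5).1
    nlinarith

end Series

/-! ### Main results -/

lemma W_eq (b : ℕ) (α : ℝ) (g : LipS1) (x : ℝ) : W b α g x = S b ((b : ℝ) ^ (-α)) g x := by
  unfold W S
  congr 1
  ext k
  congr 1
  rw [← Real.rpow_natCast, ← Real.rpow_mul (Nat.cast_nonneg b), neg_mul]

/-- The open set of functions with a one-point non-extremal slice. -/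
theorem exists_open (b : ℕ) (hb : 2 ≤ b) (α : ℝ) (hα0 : 0 < α) (hα1 : α < 1) :
    ∃ U : Set LipS1, IsOpen U ∧ U.Nonempty ∧ ∀ g ∈ U, (∃ x y, g x ≠ g y) ∧
      ∃ θ ∈ Ioo 0 (Real.pi / 2), ∃ t ∈ Ioo (mθ b α g θ) (Mθ b α g θ), ∃ p : ℝ × ℝ,
        slice b α g θ t = {p} := by
  have hb1 : (1 : ℝ) < b := by exact_mod_cast (by omega : 1 < b)
  have hbp : (0 : ℝ) < b := by positivity
  obtain ⟨ρ, hρ⟩ : ∃ ρ : ℝ, ρ = (b : ℝ) ^ (-α) := ⟨_, rfl⟩
  have h0 : 0 < ρ := by rw [hρ]; positivity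
  have h1 : ρ < 1 := by rw [hρ]; exact Real.rpow_lt_one_of_one_lt_of_neg hb1 (by linarith)
  have hρb : 1 < ρ * b := by
    have : ρ * b = (b : ℝ) ^ (1 - α) := by
      rw [hρ, sub_eq_add_neg, Real.rpow_add hbp, Real.rpow_one, mul_comm]
    rw [this]
    exact Real.one_lt_rpow hb1 (by linarith)
  obtain ⟨J, hJ⟩ := exists_pow_lt_of_lt_one (by linarith : 0 < 1 - ρ) h1
  obtain ⟨A, hA⟩ : ∃ A : ℝ≥0, (A : ℝ) = 2 * b ^ (J + 1) := ⟨⟨2 * b ^ (J + 1), by positivity⟩, rfl⟩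
  obtain ⟨C, hC⟩ : ∃ C : ℝ, C = ρ * b / (ρ * b - 1) + 2 / (1 - ρ) := ⟨_, rfl⟩
  have hq1 : 0 < ρ * b - 1 := by linarith
  have hr1 : 0 < 1 - ρ := by linarith
  have hC2 : 2 ≤ C := by
    have e1 : 0 < ρ * b / (ρ * b - 1) := by positivity
    have e2 : 2 ≤ 2 / (1 - ρ) := by rw [le_div_iff₀ hr1]; linarith
    rw [hC]; linarith
  have hC0 : 0 < C := by linarith
  refine ⟨Metric.ball (g₀ A) (1 / C), Metric.isOpen_ball,
    ⟨g₀ A, Metric.mem_ball_self (by positivity)⟩, fun g hg => ?_⟩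
  rw [Metric.mem_ball, dist_eq_norm, lt_div_iff₀ hC0] at hg
  constructor
  · -- `g` is not constant
    refine ⟨((1 / 4 : ℝ) : UnitAddCircle), -((1 / 4 : ℝ) : UnitAddCircle), fun heq => ?_⟩
    have hA1 : 1 ≤ (A : ℝ) * tri ((1 / 4 : ℝ) : UnitAddCircle) := by
      rw [tri_coe (by norm_num) le_rfl, hA]
      have : (1 : ℝ) ≤ b ^ (J + 1) := one_le_pow₀ hb1.le
      linarith
    have e1 : g₀ A ((1 / 4 : ℝ) : UnitAddCircle) = 1 := by rw [g₀_apply, cl_one hA1]
    have e2 : g₀ A (-((1 / 4 : ℝ) : UnitAddCircle)) = -1 := by rw [g₀_neg, e1]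
    have e3 := abs_le_sup (g - g₀ A) ((1 / 4 : ℝ) : UnitAddCircle)
    have e4 := abs_le_sup (g - g₀ A) (-((1 / 4 : ℝ) : UnitAddCircle))
    rw [sub_apply, e1] at e3
    rw [sub_apply, e2] at e4
    have e5 : supPart (g - g₀ A) ≤ ‖g - g₀ A‖ := by
      rw [norm_def]; linarith [lip_nonneg (g - g₀ A)]
    have e6 : ‖g - g₀ A‖ * 2 < 1 :=
      lt_of_le_of_lt (mul_le_mul_of_nonneg_left hC2 (norm_nonneg _)) hg
    rw [← heq] at e4
    linarith [(abs_le.1 e3).1, (abs_le.1 e4).2]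
  · rw [hC] at hg
    obtain ⟨a, ha, hst⟩ := steep hb h0 h1 hρb hJ.le hA hg
    -- the direction
    obtain ⟨θ, hθ⟩ : ∃ θ, θ = Real.arctan (1 / a) := ⟨_, rfl⟩
    have hθ0 : 0 < θ := by rw [hθ]; exact Real.arctan_pos.2 (by positivity)
    have hθ1 : θ < Real.pi / 2 := by rw [hθ]; exact Real.arctan_lt_pi_div_two _
    have hcos : 0 < Real.cos θ := Real.cos_pos_of_mem_Ioo ⟨by linarith, hθ1⟩
    have hsin : 0 < Real.sin θ := Real.sin_pos_of_pos_of_lt_pi hθ0 (by linarith)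
    have htan : Real.tan θ = 1 / a := by rw [hθ, Real.tan_arctan]
    have hca : Real.cos θ = a * Real.sin θ := by
      rw [Real.tan_eq_sin_div_cos, div_eq_div_iff hcos.ne' ha.ne'] at htan
      linarith
    have hproj : ∀ x : ℝ, proj θ (x, W b α g x) = Real.sin θ * (S b ρ g x + a * x) := by
      intro x
      unfold proj
      rw [W_eq, ← hρ, hca]
      ring
    have hmem : ∀ x ∈ Icc (0 : ℝ) 1, (x, W b α g x) ∈ graph b α g := fun x hx => ⟨hx, rfl⟩
    have hform : ∀ p ∈ graph b α g, p.1 ∈ Icc (0 : ℝ) 1 ∧ p = (p.1, W b α g p.1) := by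
      rintro ⟨x, y⟩ ⟨hx, hy⟩
      exact ⟨hx, by simp only [Prod.mk.injEq, true_and]; exact hy⟩
    have hx0 : (1 / b : ℝ) ∈ Icc (0 : ℝ) 1 := by
      constructor
      · positivity
      · rw [div_le_one hbp]; exact hb1.le
    have hbdd : ∀ p ∈ graph b α g, |proj θ p| ≤ Real.sin θ * (supPart g / (1 - ρ) + a) := by
      intro p hp
      obtain ⟨hx, hpe⟩ := hform p hp
      rw [hpe, hproj, abs_mul, abs_of_pos hsin]
      apply mul_le_mul_of_nonneg_left _ hsin.le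
      refine (abs_add_le _ _).trans (add_le_add (abs_S_le h0 h1 g _) ?_)
      rw [abs_mul, abs_of_pos ha, abs_of_nonneg hx.1]
      calc a * p.1 ≤ a * 1 := mul_le_mul_of_nonneg_left hx.2 ha.le
        _ = a := mul_one a
    have hba : BddAbove (proj θ '' graph b α g) := by
      refine ⟨Real.sin θ * (supPart g / (1 - ρ) + a), ?_⟩
      rintro _ ⟨p, hp, rfl⟩
      exact (abs_le.1 (hbdd p hp)).2
    have hbb : BddBelow (proj θ '' graph b α g) := by
      refine ⟨-(Real.sin θ * (supPart g / (1 - ρ) + a)), ?_⟩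
      rintro _ ⟨p, hp, rfl⟩
      exact (abs_le.1 (hbdd p hp)).1
    refine ⟨θ, ⟨hθ0, hθ1⟩, proj θ (1 / b, W b α g (1 / b)), ⟨?_, ?_⟩,
      (1 / b, W b α g (1 / b)), ?_⟩
    · -- above the minimum
      have hlt : proj θ (0, W b α g 0) < proj θ (1 / b, W b α g (1 / b)) := by
        rw [hproj, hproj]
        apply mul_lt_mul_of_pos_left _ hsin
        have h := hst 0 (by positivity)
        have h7 : (0 : ℝ) - 1 / b < 0 := by rw [zero_sub]; exact neg_neg_of_pos (by positivity)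
        by_contra hc
        push Not at hc
        have := mul_nonpos_of_nonpos_of_nonneg h7.le (sub_nonneg.2 hc)
        linarith
      exact lt_of_le_of_lt (csInf_le hbb ⟨_, hmem 0 (by simp), rfl⟩) hlt
    · have hlt : proj θ (1 / b, W b α g (1 / b)) < proj θ (1, W b α g 1) := by
        rw [hproj, hproj]
        apply mul_lt_mul_of_pos_left _ hsin
        have h7 : (1 : ℝ) / b < 1 := by rw [div_lt_one hbp]; exact hb1
        have h := hst 1 h7.ne'
        have := (mul_pos_iff_of_pos_left (by linarith : (0 : ℝ) < 1 - 1 / b)).1 h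
        linarith
      exact lt_of_lt_of_le hlt (le_csSup hba ⟨_, hmem 1 (by simp), rfl⟩)
    · -- the slice
      ext p
      rw [mem_singleton_iff]
      constructor
      · rintro ⟨hp, hpt⟩
        obtain ⟨hx, hpe⟩ := hform p hp
        by_contra hne
        have hxne : p.1 ≠ 1 / b := fun h => hne (by rw [hpe, h])
        have h := hst p.1 hxne
        rw [mem_preimage, mem_singleton_iff, hpe, hproj, hproj] at hpt
        have := mul_left_cancel₀ hsin.ne' hpt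
        rw [this, sub_self, mul_zero] at h
        exact lt_irrefl _ h
      · rintro rfl
        exact ⟨hmem _ hx0, rfl⟩

/-- `g` is not constant. -/
def NonConstant (g : LipS1) : Prop := ∃ x y, g x ≠ g y

/-- **Theorem.** Let `b ≥ 2` and `0 < α < 1`. There is a nonempty open set `U` of non-constant
functions in `Lip(S¹)` such that for every `g ∈ U` the graph of `W_g` has a non-vertical
non-extremal slice which consists of a single point. Consequently neither the statement of Q1 nor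
that of Q2 holds for a prevalent `g`. -/
theorem result (b : ℕ) (hb : 2 ≤ b) (α : ℝ) (hα0 : 0 < α) (hα1 : α < 1) :
    (∃ U : Set LipS1, IsOpen U ∧ U.Nonempty ∧ ∀ g ∈ U, NonConstant g ∧
      ∃ θ ∈ Ioo 0 (Real.pi / 2), ∃ t ∈ Ioo (mθ b α g θ) (Mθ b α g θ), ∃ p : ℝ × ℝ,
        slice b α g θ t = {p}) ∧
    (¬ ForPrevalent fun g : LipS1 => NonConstant g →
      ∀ θ ∈ Ico 0 (2 * Real.pi), Real.sin θ ≠ 0 → ∀ t ∈ Icc (mθ b α g θ) (Mθ b α g θ),
        dimH (slice b α g θ t) = ENNReal.ofReal (1 - α)) ∧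
    (¬ ForPrevalent fun g : LipS1 => NonConstant g →
      ∀ θ ∈ Ico 0 (2 * Real.pi), Real.sin θ ≠ 0 → ∀ t ∈ Ioo (mθ b α g θ) (Mθ b α g θ),
        dimH (slice b α g θ t) = ENNReal.ofReal (1 - α)) := by
  obtain ⟨U, hU, hne, h⟩ := exists_open b hb α hα0 hα1
  have hpos : ENNReal.ofReal (1 - α) ≠ 0 := by
    rw [Ne, ENNReal.ofReal_eq_zero, not_le]
    linarith
  refine ⟨⟨U, hU, hne, h⟩, not_forPrevalent hU hne fun g hg hQ => ?_,
    not_forPrevalent hU hne fun g hg hQ => ?_⟩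
  all_goals
    obtain ⟨hnc, θ, hθ, t, ht, p, hp⟩ := h g hg
    have hπ := Real.pi_pos
    have hsin : Real.sin θ ≠ 0 :=
      (Real.sin_pos_of_pos_of_lt_pi hθ.1 (by linarith [hθ.2])).ne'
    apply hpos
  · rw [← hQ hnc θ ⟨hθ.1.le, by linarith [hθ.2]⟩ hsin t ⟨ht.1.le, ht.2.le⟩, hp, dimH_singleton]
  · rw [← hQ hnc θ ⟨hθ.1.le, by linarith [hθ.2]⟩ hsin t ht, hp, dimH_singleton]

end Pool.Agent.Results.MP_60983f_an.SinglePointSlices
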